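import Mathlib
import Pool.Agent.H.MP_2a076f_an.E

set_option autoImplicit false

namespace Pool.Agent.Results.MP_2f0ae6_an.Counter

open Pool.Agent.H2a07

/-- A non-deterministic dynamically generated basic sequence for which every normal number is
distribution normal. -/
theorem result : ∃ Q : ℕ → ℕ, (∀ n, 1 ≤ n → 2 ≤ Q n) ∧ NonDet Q ∧ ∀ o : ℕ,
    {x ∈ Set.Ico (0 : ℝ) 1 | Normal o Q x ∧ ¬ DistNormal Q x} = ∅ ∧
    dimH {x ∈ Set.Ico (0 : ℝ) 1 | Normal o Q x ∧ ¬ DistNormal Q x} < 1 := by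
  obtain ⟨Q, h1, h2, h3⟩ := exists_seq
  refine ⟨Q, fun n _ => h1 n, h2, fun o => ?_⟩
  have h : {x ∈ Set.Ico (0 : ℝ) 1 | Normal o Q x ∧ ¬ DistNormal Q x} = ∅ :=
    Set.eq_empty_of_forall_notMem fun x hx => hx.2.2 (h3 o x hx.2.1).2
  rw [h]
  simp

end Pool.Agent.Results.MP_2f0ae6_an.Counter
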